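import Pool.Agent.W23.PL.Defs
import Pool.Agent.Helper256.KM.E1

/-! PL-VLB: Mertens product over the primes in `[(log N)^B, N^ε)`. -/

set_option autoImplicit false

namespace Pool.Agent.W655.PL

open Finset
open Pool.Agent.H442R2
open Pool.Agent.H442R2.KF
open Pool.Agent.W23.PL
open Pool.Agent.W23.DC

namespace Vlb

/-- the sum of the reciprocals of the squares -/
theorem sum_sq (P : Finset ℕ) (hP : ∀ p ∈ P, 2 ≤ p) : ∑ p ∈ P, 1 / (p : ℝ) ^ 2 ≤ 1 := by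
  have key : ∀ n : ℕ, ∑ p ∈ Ico 2 (n + 2), 1 / (p : ℝ) ^ 2 ≤ 1 - 1 / ((n : ℝ) + 1) := by
    intro n
    induction n with
    | zero => simp
    | succ n ih =>
      rw [Finset.sum_Ico_succ_top (by omega)]
      push_cast
      have h0 : (0 : ℝ) < (n : ℝ) + 1 := by positivity
      have h2 : (0 : ℝ) < (n : ℝ) + 2 := by positivity
      have : 1 / ((n : ℝ) + 2) ^ 2 ≤ 1 / ((n : ℝ) + 1) - 1 / ((n : ℝ) + 1 + 1) := by
        rw [show (n : ℝ) + 1 + 1 = n + 2 by ring, div_sub_div _ _ h0.ne' h2.ne',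
          div_le_div_iff₀ (by positivity) (by positivity)]
        nlinarith
      linarith
  obtain ⟨n, hn⟩ := P.exists_nat_subset_range
  have hsub : P ⊆ Ico 2 (n + 2) := by
    intro p hp
    rw [mem_Ico]
    have := mem_range.1 (hn hp)
    exact ⟨hP p hp, by omega⟩
  refine (sum_le_sum_of_subset_of_nonneg hsub (fun _ _ _ => by positivity)).trans
    ((key n).trans ?_)
  have : 0 ≤ 1 / ((n : ℝ) + 1) := by positivity
  linarith

/-- product and sum -/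
theorem VV_bounds (P : Finset ℕ) (hP : ∀ p ∈ P, 2 ≤ p) :
    Real.exp (-(∑ p ∈ P, 1 / (p : ℝ)) - 2) ≤ VV P ∧ VV P ≤ Real.exp (-(∑ p ∈ P, 1 / (p : ℝ))) := by
  constructor
  · have h1 : ∀ p ∈ P, Real.exp (-(1 / (p : ℝ)) - 2 * (1 / (p : ℝ) ^ 2)) ≤ 1 - 1 / (p : ℝ) := by
      intro p hp
      have h2 : (2 : ℝ) ≤ p := by exact_mod_cast hP p hp
      set x := 1 / (p : ℝ) with hx
      have hx0 : 0 < x := by positivity
      have hx1 : x ≤ 1 / 2 := one_div_le_one_div_of_le (by norm_num) h2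
      have hx2 : 1 / (p : ℝ) ^ 2 = x ^ 2 := by rw [hx, div_pow, one_pow]
      rw [hx2]
      have h3 : -x - 2 * x ^ 2 ≤ Real.log (1 - x) := by
        have h5 := Real.abs_log_sub_add_sum_range_le (x := x) (by rw [abs_of_pos hx0]; linarith) 1
        simp only [Finset.sum_range_one, Nat.cast_zero, zero_add, pow_one, div_one,
          abs_of_pos hx0] at h5
        have h6 := (abs_le.1 h5).1
        have h7 : x ^ (1 + 1) / (1 - x) ≤ 2 * x ^ 2 := by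
          rw [div_le_iff₀ (by linarith)]
          have : 0 ≤ x ^ 2 := sq_nonneg x
          have e : x ^ (1 + 1) = x ^ 2 := by norm_num
          rw [e]
          nlinarith
        linarith
      calc Real.exp (-x - 2 * x ^ 2) ≤ Real.exp (Real.log (1 - x)) := Real.exp_le_exp.2 h3
        _ = 1 - x := Real.exp_log (by linarith)
    have h2 : Real.exp (∑ p ∈ P, (-(1 / (p : ℝ)) - 2 * (1 / (p : ℝ) ^ 2))) ≤ VV P := by
      rw [Real.exp_sum]
      exact Finset.prod_le_prod (fun _ _ => (Real.exp_pos _).le) h1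
    refine le_trans (Real.exp_le_exp.2 ?_) h2
    rw [Finset.sum_sub_distrib, Finset.sum_neg_distrib, ← Finset.mul_sum]
    have := sum_sq P hP
    linarith
  · have h1 : ∀ p ∈ P, 1 - 1 / (p : ℝ) ≤ Real.exp (-(1 / (p : ℝ))) := by
      intro p _
      have := Real.add_one_le_exp (-(1 / (p : ℝ)))
      linarith
    rw [← Finset.sum_neg_distrib, Real.exp_sum]
    refine Finset.prod_le_prod (fun p hp => ?_) h1
    have h2 : (2 : ℝ) ≤ p := by exact_mod_cast hP p hp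
    have : 1 / (p : ℝ) ≤ 1 / 2 := one_div_le_one_div_of_le (by norm_num) h2
    linarith

/-- the primes up to `y` -/
noncomputable def fP (y : ℝ) : Finset ℕ := (Finset.Icc 1 ⌊y⌋₊).filter Nat.Prime

theorem mem_fP {y : ℝ} (hy : 0 ≤ y) {p : ℕ} : p ∈ fP y ↔ p.Prime ∧ (p : ℝ) ≤ y := by
  unfold fP
  rw [mem_filter, mem_Icc]
  constructor
  · rintro ⟨⟨_, h2⟩, h3⟩
    exact ⟨h3, (Nat.le_floor_iff hy).1 h2⟩
  · rintro ⟨h1, h2⟩
    exact ⟨⟨h1.one_lt.le, (Nat.le_floor_iff hy).2 h2⟩, h1⟩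

theorem sum_between (P : Finset ℕ) (w v : ℝ) (hw : 0 ≤ w) (hwv : w ≤ v)
    (hP : ∀ p : ℕ, p ∈ P ↔ p.Prime ∧ w ≤ (p : ℝ) ∧ (p : ℝ) < v) :
    (∑ p ∈ fP v, (1 : ℝ) / p) - (∑ p ∈ fP w, (1 : ℝ) / p) - 1 ≤ ∑ p ∈ P, 1 / (p : ℝ) ∧
    ∑ p ∈ P, 1 / (p : ℝ) ≤ (∑ p ∈ fP v, (1 : ℝ) / p) - (∑ p ∈ fP w, (1 : ℝ) / p) + 1 := by
  have hv : 0 ≤ v := hw.trans hwv
  have hsing : ∀ n : ℕ, (1 : ℝ) / n ≤ 1 := by
    intro n
    rcases Nat.eq_zero_or_pos n with h | h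
    · subst h; simp
    · rw [div_le_one (by exact_mod_cast h)]
      exact_mod_cast h
  constructor
  · have hsub : fP v ⊆ (P ∪ fP w) ∪ {⌊v⌋₊} := by
      intro p hp
      obtain ⟨h1, h2⟩ := (mem_fP hv).1 hp
      rw [mem_union, mem_union, mem_singleton, hP, mem_fP hw]
      rcases le_or_gt w p with h3 | h3
      · rcases lt_or_eq_of_le h2 with h4 | h4
        · exact Or.inl (Or.inl ⟨h1, h3, h4⟩)
        · right
          rw [← h4, Nat.floor_natCast]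
      · exact Or.inl (Or.inr ⟨h1, h3.le⟩)
    have h1 : ∑ p ∈ fP v, (1 : ℝ) / p ≤ ∑ p ∈ (P ∪ fP w) ∪ {⌊v⌋₊}, (1 : ℝ) / p :=
      sum_le_sum_of_subset_of_nonneg hsub (fun _ _ _ => by positivity)
    have h2 : ∑ p ∈ (P ∪ fP w) ∪ {⌊v⌋₊}, (1 : ℝ) / p ≤
        ∑ p ∈ P ∪ fP w, (1 : ℝ) / p + ∑ p ∈ ({⌊v⌋₊} : Finset ℕ), (1 : ℝ) / p := by
      rw [← sum_union_inter]
      have : 0 ≤ ∑ p ∈ (P ∪ fP w) ∩ {⌊v⌋₊}, (1 : ℝ) / p := sum_nonneg (fun _ _ => by positivity)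
      linarith
    have h3 : ∑ p ∈ P ∪ fP w, (1 : ℝ) / p ≤
        ∑ p ∈ P, (1 : ℝ) / p + ∑ p ∈ fP w, (1 : ℝ) / p := by
      rw [← sum_union_inter]
      have : 0 ≤ ∑ p ∈ P ∩ fP w, (1 : ℝ) / p := sum_nonneg (fun _ _ => by positivity)
      linarith
    rw [sum_singleton] at h2
    have := hsing ⌊v⌋₊
    linarith
  · have h1 : ∑ p ∈ P ∪ fP w, (1 : ℝ) / p + ∑ p ∈ P ∩ fP w, (1 : ℝ) / p =
        ∑ p ∈ P, (1 : ℝ) / p + ∑ p ∈ fP w, (1 : ℝ) / p := sum_union_inter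
    have h2 : ∑ p ∈ P ∪ fP w, (1 : ℝ) / p ≤ ∑ p ∈ fP v, (1 : ℝ) / p := by
      apply sum_le_sum_of_subset_of_nonneg _ (fun _ _ _ => by positivity)
      intro p hp
      rw [mem_fP hv]
      rcases mem_union.1 hp with h | h
      · obtain ⟨h3, _, h4⟩ := (hP p).1 h
        exact ⟨h3, h4.le⟩
      · obtain ⟨h3, h4⟩ := (mem_fP hw).1 h
        exact ⟨h3, h4.trans hwv⟩
    have h3 : ∑ p ∈ P ∩ fP w, (1 : ℝ) / p ≤ 1 := by
      have hsub : P ∩ fP w ⊆ {⌊w⌋₊} := by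
        intro p hp
        obtain ⟨h4, h5⟩ := mem_inter.1 hp
        have h6 := ((hP p).1 h4).2.1
        have h7 := ((mem_fP hw).1 h5).2
        rw [mem_singleton, le_antisymm h6 h7, Nat.floor_natCast]
      refine (sum_le_sum_of_subset_of_nonneg hsub (fun _ _ _ => by positivity)).trans ?_
      rw [sum_singleton]
      exact hsing _
    linarith

/-- large `N` -/
theorem large (B : ℕ) (hB : 1 ≤ B) (ε : ℝ) (hε : 0 < ε) : ∃ N₀ : ℕ, ∀ N : ℕ, N₀ ≤ N →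
    2 ≤ Real.log N ^ B ∧ Real.log N ^ B ≤ (N : ℝ) ^ ε := by
  have h1 : (fun x : ℝ => Real.log x ^ (B : ℝ)) =o[Filter.atTop] fun x => x ^ ε :=
    isLittleO_log_rpow_rpow_atTop (B : ℝ) hε
  have h2 := h1.bound (show (0 : ℝ) < 1 by norm_num)
  have h3 := (tendsto_natCast_atTop_atTop (R := ℝ)).eventually h2
  have h4 := (Real.tendsto_log_atTop.comp (tendsto_natCast_atTop_atTop (R := ℝ))).eventually
    (Filter.eventually_ge_atTop 2)
  obtain ⟨N₀, hN₀⟩ := Filter.eventually_atTop.1 (h3.and h4)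
  refine ⟨N₀, fun N hN => ?_⟩
  obtain ⟨h5, h6⟩ := hN₀ N hN
  have h7 : (2 : ℝ) ≤ Real.log N := h6
  refine ⟨h7.trans ?_, ?_⟩
  · calc Real.log N = Real.log N ^ 1 := (pow_one _).symm
      _ ≤ Real.log N ^ B := pow_le_pow_right₀ (by linarith) hB
  · rw [Real.rpow_natCast, one_mul, Real.norm_eq_abs, Real.norm_eq_abs,
      abs_of_nonneg (by positivity), abs_of_nonneg (by positivity)] at h5
    exact h5

end Vlb

open Vlb in
theorem VLB : St_VLB := by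
  obtain ⟨C1, hC1, hup⟩ := Pool.Agent.Helper256.KM.mertens_upper
  obtain ⟨C2, hC2, hlo⟩ := Pool.Agent.Helper256.KM.mertens_lower
  set C := C1 + C2 + 1 with hC
  refine ⟨Real.exp (-(C + 2)), Real.exp_pos _, ?_⟩
  intro B hB ε₁ hε hε1
  obtain ⟨N₀, hN₀⟩ := large B hB ε₁ hε
  refine ⟨max N₀ 3, ?_⟩
  intro N hN
  obtain ⟨hw2, hwv⟩ := hN₀ N ((le_max_left _ _).trans hN)
  have hN3 : 3 ≤ N := (le_max_right _ _).trans hN
  have hNR : (3 : ℝ) ≤ N := by exact_mod_cast hN3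
  have hN0 : (0 : ℝ) < N := by linarith
  have hlN : 1 < Real.log N := by
    rw [Real.lt_log_iff_exp_lt hN0]
    have := Real.exp_one_lt_d9
    linarith
  set w := Real.log N ^ B with hw
  set v := (N : ℝ) ^ ε₁ with hv
  have hP : ∀ p : ℕ, p ∈ P1 N B ε₁ ↔ p.Prime ∧ w ≤ (p : ℝ) ∧ (p : ℝ) < v := by
    intro p
    unfold P1 tt
    rw [mem_filter, mem_Icc]
    constructor
    · rintro ⟨⟨h1, h2⟩, h3, h4, h5⟩
      refine ⟨h3, h4, ?_⟩
      have hp0 : (0 : ℝ) < p := by exact_mod_cast h3.pos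
      rw [div_lt_iff₀ (by linarith)] at h5
      rw [hv, Real.rpow_def_of_pos hN0, ← Real.log_lt_iff_lt_exp hp0]
      linarith
    · rintro ⟨h3, h4, h5⟩
      have hp0 : (0 : ℝ) < p := by exact_mod_cast h3.pos
      refine ⟨⟨h3.one_lt.le, ?_⟩, h3, h4, ?_⟩
      · have h6 : v ≤ (N : ℝ) ^ (1 : ℝ) := Real.rpow_le_rpow_of_exponent_le (by linarith) hε1
        rw [Real.rpow_one] at h6
        exact_mod_cast (h5.trans_le h6).le
      · rw [div_lt_iff₀ (by linarith)]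
        rw [hv, Real.rpow_def_of_pos hN0, ← Real.log_lt_iff_lt_exp hp0] at h5
        linarith
  obtain ⟨hs1, hs2⟩ := sum_between _ w v (by linarith) hwv hP
  obtain ⟨hV1, hV2⟩ := VV_bounds (P1 N B ε₁) (fun p hp => ((hP p).1 hp).1.two_le)
  have hlw : Real.log w = B * Real.log (Real.log N) := by rw [hw, Real.log_pow]
  have hlv : Real.log v = ε₁ * Real.log N := by rw [hv, Real.log_rpow hN0]
  have hlw0 : 0 < Real.log w := Real.log_pos (by linarith)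
  have hlv0 : 0 < Real.log v := by rw [hlv]; positivity
  have hu1 := hup v (hw2.trans hwv)
  have hu2 := hup w hw2
  have hl1 := hlo v (hw2.trans hwv)
  have hl2 := hlo w hw2
  have hfv : ∑ p ∈ fP v, (1 : ℝ) / p = ∑ p ∈ (Finset.Icc 1 ⌊v⌋₊).filter Nat.Prime, (1 : ℝ) / p := rfl
  have hfw : ∑ p ∈ fP w, (1 : ℝ) / p = ∑ p ∈ (Finset.Icc 1 ⌊w⌋₊).filter Nat.Prime, (1 : ℝ) / p := rfl
  rw [hfv, hfw] at hs1 hs2
  rw [← hlw, ← hlv]
  have hq : Real.log w / Real.log v = Real.exp (Real.log (Real.log w) - Real.log (Real.log v)) := by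
    rw [Real.exp_sub, Real.exp_log hlw0, Real.exp_log hlv0]
  rw [hq]
  constructor
  · rw [← Real.exp_add]
    refine le_trans (Real.exp_le_exp.2 ?_) hV1
    linarith
  · rw [one_div, ← Real.exp_neg, ← Real.exp_add]
    refine hV2.trans (Real.exp_le_exp.2 ?_)
    linarith

end Pool.Agent.W655.PL
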