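import Pool.Agent.W23.PL.Defs
import Pool.Agent.H442R2.BX.Rc
import Pool.Agent.H442R2.BX.Ra
import Pool.Agent.H442R2.BX.Pb

/-! PL-PBX: the pointwise bound with an explicit constant. -/

set_option autoImplicit false

namespace Pool.Agent.W655.PL

open Finset
open Pool.Agent.H442R2
open Pool.Agent.H442R2.KF
open Pool.Agent.H442R2.BX
open Pool.Agent.W23.PL
open Pool.Agent.W23.DC

namespace Pbx

open Pool.Agent.H442R2.BX.TaskRA Pool.Agent.H442R2.BX.TaskRC

theorem RA' : ∃ C : ℝ, 0 ≤ C ∧ ∀ ε : ℝ, 0 < ε → ∀ N : ℕ, 2 ≤ N →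
    ∑ d ∈ roughs ((N : ℝ) ^ ε) N, 1 / (d : ℝ) ≤
      (4 : ℝ) ^ (1 / ε) + Real.exp (2 * (2 * C + |Real.log (ε / 2)|)) := by
  obtain ⟨C, hC⟩ := Pool.Agent.Helper601.Mertens.mertens_inv
  have hC0 : 0 ≤ C := (abs_nonneg _).trans (hC 3 le_rfl)
  refine ⟨C, hC0, fun ε hε N hN => ?_⟩
  have hN2 : (2 : ℝ) ≤ N := by exact_mod_cast hN
  have hlN : 0 < Real.log N := Real.log_pos (by linarith)
  set y : ℝ := (N : ℝ) ^ ε with hy
  by_cases h4 : y < 4
  · -- small
    have h1 : (N : ℝ) ≤ (4 : ℝ) ^ (1 / ε) := by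
      have h2 : (N : ℝ) = y ^ (1 / ε) := by
        rw [hy, ← Real.rpow_mul (by linarith), mul_one_div_cancel hε.ne', Real.rpow_one]
      rw [h2]
      exact Real.rpow_le_rpow (by positivity) h4.le (by positivity)
    have h3 : ∑ d ∈ roughs y N, 1 / (d : ℝ) ≤ ∑ d ∈ Icc 1 N, (1 : ℝ) := by
      refine (sum_le_sum_of_subset_of_nonneg (fun d hd => mem_Icc.2 (mem_roughs.1 hd).1)
        fun _ _ _ => by positivity).trans ?_
      refine sum_le_sum fun d hd => ?_
      have : (1 : ℝ) ≤ d := by exact_mod_cast (mem_Icc.1 hd).1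
      rw [div_le_one (by linarith)]
      exact this
    have h5 : ∑ d ∈ Icc 1 N, (1 : ℝ) = N := by simp
    have h6 : 0 < Real.exp (2 * (2 * C + |Real.log (ε / 2)|)) := Real.exp_pos _
    linarith
  push Not at h4
  -- large
  set n0 : ℕ := ⌊y⌋₊ with hn0
  have hn04 : 4 ≤ n0 := Nat.le_floor (by exact_mod_cast h4)
  have hn0y : y < (n0 : ℝ) + 1 := Nat.lt_floor_add_one y
  have hy0 : 0 ≤ y := by linarith
  have e1 : ∑ d ∈ roughs y N, 1 / (d : ℝ) ≤
      Real.exp (2 * ∑ p ∈ (Ioc n0 N).filter Nat.Prime, 1 / (p : ℝ)) := by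
    refine (sum_le_prod (Ioc n0 N) (roughs y N) ?_).trans (prod_le_exp _)
    intro d hd
    obtain ⟨⟨h1, h2⟩, h3, h5⟩ := mem_roughs.1 hd
    refine ⟨by omega, fun p hp hpd => ?_⟩
    rw [mem_Ioc]
    exact ⟨(Nat.floor_lt hy0).2 (h5 p hp hpd), (Nat.le_of_dvd (by omega) hpd).trans h2⟩
  have e2 : ∑ p ∈ (Ioc n0 N).filter Nat.Prime, 1 / (p : ℝ) ≤ 2 * C + |Real.log (ε / 2)| := by
    by_cases h : N ≤ n0
    · rw [Ioc_eq_empty (by omega), filter_empty, sum_empty]
      positivity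
    push Not at h
    have hsplit : ∑ p ∈ (Icc 1 N).filter Nat.Prime, (1 : ℝ) / p =
        ∑ p ∈ (Icc 1 n0).filter Nat.Prime, (1 : ℝ) / p +
          ∑ p ∈ (Ioc n0 N).filter Nat.Prime, (1 : ℝ) / p := by
      rw [← sum_union]
      · refine sum_congr ?_ fun _ _ => rfl
        ext p
        simp only [mem_union, mem_filter, mem_Icc, mem_Ioc]
        constructor
        · rintro ⟨⟨h3, h4⟩, h5⟩
          by_cases h6 : p ≤ n0
          · exact Or.inl ⟨⟨h3, h6⟩, h5⟩
          · exact Or.inr ⟨⟨by omega, h4⟩, h5⟩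
        · rintro (⟨⟨h3, h4⟩, h5⟩ | ⟨⟨h3, h4⟩, h5⟩)
          · exact ⟨⟨h3, by omega⟩, h5⟩
          · exact ⟨⟨by omega, h4⟩, h5⟩
      · rw [disjoint_left]
        intro p hp hp'
        simp only [mem_filter, mem_Icc, mem_Ioc] at hp hp'
        omega
    have h1 := (abs_le.mp (hC N (by omega))).2
    have h2 := (abs_le.mp (hC n0 (by omega))).1
    have hn0' : (4 : ℝ) ≤ n0 := by exact_mod_cast hn04
    have hln : 0 < Real.log n0 := Real.log_pos (by linarith)
    have h3 : ε * Real.log N ≤ 2 * Real.log n0 := by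
      have h5 : Real.log y = ε * Real.log N := by rw [hy, Real.log_rpow (by linarith)]
      rw [← h5]
      have h6 : Real.log y ≤ Real.log ((n0 : ℝ) ^ 2) :=
        Real.log_le_log (by linarith) (by nlinarith)
      rwa [Real.log_pow, Nat.cast_ofNat] at h6
    have h7 : Real.log (ε / 2) + Real.log (Real.log N) ≤ Real.log (Real.log n0) := by
      rw [← Real.log_mul (by positivity) hlN.ne']
      exact Real.log_le_log (by positivity) (by linarith)
    have h8 := neg_abs_le (Real.log (ε / 2))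
    linarith
  have e3 := Real.exp_le_exp.2 (mul_le_mul_of_nonneg_left e2 (by norm_num : (0 : ℝ) ≤ 2))
  have e4 : (0 : ℝ) < (4 : ℝ) ^ (1 / ε) := by positivity
  linarith

theorem RC' (ε : ℝ) (hε : 0 < ε) (N X : ℕ) (hN1 : Real.exp (4 / ε) ≤ (N : ℝ)) (a n : ℤ)
    (ha : |(a : ℝ)| ≤ N) (hna : n ≠ a) :
    ((rd ((N : ℝ) ^ ε) X (n - a)).card : ℝ) ≤
      Real.exp (1 / ε) * (1 + |(n : ℝ)| / N) ^ (1 / 4 : ℝ) := by
  have hN0 : (0 : ℝ) < (N : ℝ) := lt_of_lt_of_le (Real.exp_pos _) hN1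
  have hlog : 4 / ε ≤ Real.log N := by
    rw [Real.le_log_iff_exp_le hN0]; exact hN1
  have hlog0 : 0 < Real.log N := lt_of_lt_of_le (by positivity) hlog
  have hεlog : 4 ≤ ε * Real.log N := by
    rw [div_le_iff₀ hε] at hlog
    linarith
  have hN1' : (1 : ℝ) ≤ (N : ℝ) := by
    have : Real.exp 0 ≤ Real.exp (4 / ε) := Real.exp_le_exp.mpr (by positivity)
    rw [Real.exp_zero] at this
    linarith
  set y : ℝ := (N : ℝ) ^ ε with hy
  have hy1 : 1 ≤ y := Real.one_le_rpow hN1' hε.le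
  have hm : n - a ≠ 0 := sub_ne_zero.mpr hna
  obtain ⟨k, hk1, hk2⟩ := rr_card y hy1 (n - a).natAbs (Int.natAbs_pos.mpr hm)
  set B : ℝ := 1 + |(n : ℝ)| / N with hB
  have hB1 : 1 ≤ B := by
    have : 0 ≤ |(n : ℝ)| / N := by positivity
    linarith
  have hmB : (((n - a).natAbs : ℕ) : ℝ) ≤ N * B := by
    have h1 : (((n - a).natAbs : ℕ) : ℝ) = |((n : ℝ) - a)| := by
      rw [Nat.cast_natAbs]
      push_cast
      rfl
    rw [h1, hB, mul_add, mul_one, mul_div_cancel₀ _ hN0.ne']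
    have := abs_sub (n : ℝ) (a : ℝ)
    linarith
  have hk3 : (k : ℝ) * (ε * Real.log N) ≤ Real.log N + Real.log B := by
    have h1 : Real.log (y ^ k) ≤ Real.log (N * B) :=
      Real.log_le_log (by positivity) (hk1.trans hmB)
    rw [Real.log_pow, hy, Real.log_rpow hN0, Real.log_mul hN0.ne' (by positivity)] at h1
    exact h1
  have hlB : 0 ≤ Real.log B := Real.log_nonneg hB1
  have hk4 : (k : ℝ) ≤ 1 / ε + Real.log B * (1 / 4) := by
    have hpos : 0 < ε * Real.log N := by positivity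
    have h1 : (k : ℝ) ≤ (Real.log N + Real.log B) / (ε * Real.log N) :=
      (le_div_iff₀ hpos).mpr hk3
    have h2 : (Real.log N + Real.log B) / (ε * Real.log N) =
        1 / ε + Real.log B / (ε * Real.log N) := by
      field_simp
    have h3 : Real.log B / (ε * Real.log N) ≤ Real.log B * (1 / 4) := by
      rw [div_eq_mul_one_div]
      refine mul_le_mul_of_nonneg_left ?_ hlB
      exact one_div_le_one_div_of_le (by norm_num) hεlog
    rw [h2] at h1
    linarith
  have hcard : ((rd y X (n - a)).card : ℝ) ≤ (2 : ℝ) ^ k := by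
    have h1 := (card_le_card (rd_sub y X (n - a) hm)).trans hk2
    exact_mod_cast h1
  have h2k : (2 : ℝ) ^ k ≤ Real.exp k := by
    have h1 : (2 : ℝ) ≤ Real.exp 1 := by
      have := Real.add_one_le_exp (1 : ℝ)
      linarith
    calc (2 : ℝ) ^ k ≤ (Real.exp 1) ^ k := pow_le_pow_left₀ (by norm_num) h1 k
      _ = Real.exp k := by rw [← Real.exp_nat_mul, mul_one]
  calc ((rd y X (n - a)).card : ℝ) ≤ Real.exp k := hcard.trans h2k
    _ ≤ Real.exp (1 / ε + Real.log B * (1 / 4)) := Real.exp_le_exp.mpr hk4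
    _ = Real.exp (1 / ε) * B ^ (1 / 4 : ℝ) := by
        rw [Real.exp_add, Real.rpow_def_of_pos (by positivity)]


end Pbx

open Pbx TaskPB in
theorem PBX : St_PBX := by
  obtain ⟨C, hC0, hRA⟩ := RA'
  refine ⟨4 * C + 6, by positivity, ?_⟩
  intro ε hε hε1
  refine ⟨max 2 ⌈Real.exp (4 / ε)⌉₊, ?_⟩
  intro N X hN hX c hc a n ha
  have hN2 : 2 ≤ N := (le_max_left _ _).trans hN
  have hNe : Real.exp (4 / ε) ≤ (N : ℝ) := Nat.ceil_le.mp ((le_max_right _ _).trans hN)
  have hb : (1 : ℝ) ≤ (1 + |(n : ℝ)| / N) ^ (1 / 4 : ℝ) := by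
    apply Real.one_le_rpow _ (by norm_num)
    have : 0 ≤ |(n : ℝ)| / N := by positivity
    linarith
  have h1e : 1 ≤ 1 / ε := by rw [le_div_iff₀ hε]; linarith
  -- constants
  have hK1 : Real.exp (1 / ε) ≤ Real.exp ((4 * C + 4) / ε) := by
    apply Real.exp_le_exp.2
    apply div_le_div_of_nonneg_right _ hε.le
    linarith
  have hK2 : (4 : ℝ) ^ (1 / ε) ≤ Real.exp ((4 * C + 4) / ε) := by
    rw [Real.rpow_def_of_pos (by norm_num)]
    apply Real.exp_le_exp.2
    have h4 : Real.log 4 ≤ 4 := by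
      have := Real.log_le_sub_one_of_pos (show (0 : ℝ) < 4 by norm_num)
      linarith
    rw [mul_one_div]
    apply div_le_div_of_nonneg_right _ hε.le
    linarith
  have hK3 : Real.exp (2 * (2 * C + |Real.log (ε / 2)|)) ≤ Real.exp ((4 * C + 4) / ε) := by
    apply Real.exp_le_exp.2
    have hlog : |Real.log (ε / 2)| ≤ 2 / ε := by
      have h1 : Real.log (ε / 2) ≤ 0 := Real.log_nonpos (by positivity) (by linarith)
      rw [abs_of_nonpos h1, ← Real.log_inv, inv_div]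
      have := Real.log_le_sub_one_of_pos (show (0 : ℝ) < 2 / ε by positivity)
      linarith
    have hCe : C ≤ C / ε := by
      rw [le_div_iff₀ hε]
      nlinarith
    have : (4 * C + 4) / ε = 4 * (C / ε) + 2 * (2 / ε) := by ring
    rw [this]
    linarith
  have hK : 3 * Real.exp ((4 * C + 4) / ε) ≤ Real.exp ((4 * C + 6) / ε) := by
    have h3 : (3 : ℝ) ≤ Real.exp (2 / ε) := by
      have h5 : 2 ≤ 2 / ε := by
        rw [le_div_iff₀ hε]; linarith
      have h6 := Real.add_one_le_exp (2 / ε)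
      linarith
    calc 3 * Real.exp ((4 * C + 4) / ε) ≤ Real.exp (2 / ε) * Real.exp ((4 * C + 4) / ε) := by
          gcongr
      _ = Real.exp ((4 * C + 6) / ε) := by
          rw [← Real.exp_add]; congr 1; ring
  set K := Real.exp ((4 * C + 4) / ε) with hKdef
  have hKpos : 0 < K := Real.exp_pos _
  unfold rf
  split_ifs with hna
  · rw [abs_zero]
    positivity
  · have h3 := abs_Rf_le _ X c hc a n
    have h4 := RC' ε hε N X hNe a n ha hna
    have h5 : ∑ d ∈ roughs ((N : ℝ) ^ ε) X, 1 / (d : ℝ) ≤ 2 * K :=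
      (sum_le_sum_of_subset_of_nonneg (roughs_mono _ hX) fun _ _ _ => by positivity).trans
        ((hRA ε hε N hN2).trans (by linarith))
    set B := (1 + |(n : ℝ)| / N) ^ (1 / 4 : ℝ) with hB
    calc |Rf c X a n| ≤ Real.exp (1 / ε) * B + 2 * K := by linarith
      _ ≤ K * B + 2 * K * B := by nlinarith
      _ = 3 * K * B := by ring
      _ ≤ Real.exp ((4 * C + 6) / ε) * B := by gcongr

end Pool.Agent.W655.PL
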